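import Mathlib

set_option autoImplicit false

/-! Places of number fields: product formula, heights, sizes of the elements of a subfield. -/

open NumberField Real Module

namespace Pool.Agent.KS6_31.VJ

section Field

variable {L : Type} [Field L] [NumberField L]

/-- The finite places above the rational primes in `T`. -/
theorem finite_placesOver (L : Type) [Field L] [NumberField L] (T : Finset ℕ) :
    {v : FinitePlace L | ∃ p ∈ T, p ≠ 0 ∧ v (p : L) ≠ 1}.Finite := by
  have h : ∀ p ∈ T, {v : FinitePlace L | p ≠ 0 ∧ v (p : L) ≠ 1}.Finite := by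
    intro p _
    by_cases hp : p = 0
    · simp [hp]
    · have h1 : ((p : L)) ≠ 0 := by exact_mod_cast hp
      refine (FinitePlace.hasFiniteMulSupport h1).subset ?_
      rintro v ⟨_, hv⟩
      exact hv
  refine (Set.Finite.biUnion T.finite_toSet h).subset ?_
  rintro v ⟨p, hp, hv⟩
  exact Set.mem_biUnion (Finset.mem_coe.mpr hp) hv

/-- The finite places of `L` above the rational primes in `T`, i.e. those at which some
`p ∈ T` does not have absolute value `1`. -/
noncomputable def placesOver (L : Type) [Field L] [NumberField L] (T : Finset ℕ) :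
    Finset (FinitePlace L) := (finite_placesOver L T).toFinset

theorem mem_placesOver {T : Finset ℕ} {v : FinitePlace L} :
    v ∈ placesOver L T ↔ ∃ p ∈ T, p ≠ 0 ∧ v (p : L) ≠ 1 := by
  simp [placesOver]

/-- the product formula, for a number which is a unit outside `S` -/
theorem product_formula (S : Finset (FinitePlace L)) {x : L} (hx0 : x ≠ 0)
    (hS : ∀ v : FinitePlace L, v ∉ S → v x = 1) :
    (∑ v : InfinitePlace L, (v.mult : ℝ) * log (v x)) + ∑ v ∈ S, log (v x) = 0 := by
  have h := prod_abs_eq_one (K := L) hx0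
  rw [finprod_eq_prod_of_mulSupport_subset (s := S)] at h
  · have h2 := congrArg Real.log h
    rw [Real.log_one, Real.log_mul, Real.log_prod, Real.log_prod] at h2
    · simpa [Real.log_pow] using h2
    · intro v _
      exact (FinitePlace.pos_iff.mpr hx0).ne'
    · intro v _
      exact (pow_pos (InfinitePlace.pos_iff.mpr hx0) _).ne'
    · exact (Finset.prod_pos fun v _ => pow_pos (InfinitePlace.pos_iff.mpr hx0) _).ne'
    · exact (Finset.prod_pos fun v _ => FinitePlace.pos_iff.mpr hx0).ne'
  · intro v hv
    by_contra hvS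
    exact hv (hS v hvS)

theorem height_eq (S : Finset (FinitePlace L)) (x : L)
    (hS : ∀ v : FinitePlace L, v ∉ S → v x ≤ 1) :
    Height.logHeight₁ x = (∑ v : InfinitePlace L, (v.mult : ℝ) * log⁺ (v x)) +
      ∑ v ∈ S, log⁺ (v x) := by
  rw [logHeight₁_eq]
  congr 1
  apply finsum_eq_sum_of_support_subset
  intro v hv
  by_contra hvS
  apply hv
  exact posLog_eq_zero_iff _ |>.2 (by rw [abs_of_nonneg (apply_nonneg v x)]; exact hS v hvS)

lemma fin_le_one (w : FinitePlace L) {x : L} (hx : IsIntegral ℤ x) : w x ≤ 1 := by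
  have := FinitePlace.norm_le_one (K := L) (w.maximalIdeal) (⟨x, hx⟩ : 𝓞 L)
  rw [FinitePlace.norm_embedding_eq] at this
  exact this

/-- A finite set of places outside of which a given number is a unit. -/
noncomputable def supp (x : L) : Finset (FinitePlace L) :=
  open Classical in
  if h : x = 0 then ∅ else (FinitePlace.hasFiniteMulSupport h).toFinset

lemma supp_spec {x : L} (hx : x ≠ 0) {v : FinitePlace L} (hv : v ∉ supp x) : v x = 1 := by
  unfold supp at hv
  rw [dif_neg hx] at hv
  by_contra hc
  apply hv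
  rw [Set.Finite.mem_toFinset]
  exact hc

lemma sum_mult : (∑ v : InfinitePlace L, (v.mult : ℝ)) = finrank ℚ L := by
  exact_mod_cast InfinitePlace.sum_mult_eq (K := L)

/-- upper bound at the infinite places -/
lemma inf_sum_le {φ : InfinitePlace L → ℝ} {c : ℝ} (h : ∀ v, φ v ≤ c) :
    (∑ v : InfinitePlace L, (v.mult : ℝ) * φ v) ≤ finrank ℚ L * c := by
  rw [← sum_mult, Finset.sum_mul]
  exact Finset.sum_le_sum fun v _ => mul_le_mul_of_nonneg_left (h v) (Nat.cast_nonneg _)

lemma le_inf_sum {φ : InfinitePlace L → ℝ} {c : ℝ} (h : ∀ v, c ≤ φ v) :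
    finrank ℚ L * c ≤ (∑ v : InfinitePlace L, (v.mult : ℝ) * φ v) := by
  rw [← sum_mult, Finset.sum_mul]
  exact Finset.sum_le_sum fun v _ => mul_le_mul_of_nonneg_left (h v) (Nat.cast_nonneg _)

end Field

section Extension

variable {K : Type} [Field K] [NumberField K] {L : Type} [Field L] [NumberField L] [Algebra K L]

/-- The sum of the infinite absolute values. -/
noncomputable def M (a : K) : ℝ := ∑ v : InfinitePlace K, v a

lemma inf_apply (w : InfinitePlace L) (a : K) :
    w (algebraMap K L a) = (w.comap (algebraMap K L)) a := rfl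

lemma M_nonneg (a : K) : 0 ≤ M a := Finset.sum_nonneg fun v _ => apply_nonneg v a

lemma inf_le (w : InfinitePlace L) (a : K) : w (algebraMap K L a) ≤ M a := by
  rw [inf_apply]
  exact Finset.single_le_sum (f := fun v : InfinitePlace K => v a)
    (fun v _ => apply_nonneg v a) (Finset.mem_univ _)

lemma M_pos {a : K} (ha : a ≠ 0) : 0 < M a :=
  Finset.sum_pos (fun v _ => InfinitePlace.pos_iff.2 ha) Finset.univ_nonempty

lemma integral_map {a : K} (ha : IsIntegral ℤ a) : IsIntegral ℤ (algebraMap K L a) :=
  ha.map (IsScalarTower.toAlgHom ℤ K L)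

/-- The finite part of a fixed number is bounded below. -/
lemma fin_sum_ge (S F : Finset (FinitePlace L)) (hSF : S ⊆ F) {a : K} (ha : IsIntegral ℤ a)
    (ha0 : a ≠ 0) (hF : supp (algebraMap K L a) ⊆ F) :
    -(finrank ℚ L * log (M a)) ≤ ∑ v ∈ S, log (v (algebraMap K L a)) := by
  classical
  have hne : algebraMap K L a ≠ 0 := by simpa using ha0
  have h1 := product_formula F hne (fun v hv => supp_spec hne fun hc => hv (hF hc))
  have h2 : (∑ v : InfinitePlace L, (v.mult : ℝ) * log (v (algebraMap K L a))) ≤
      finrank ℚ L * log (M a) :=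
    inf_sum_le fun v => log_le_log (InfinitePlace.pos_iff.2 hne) (inf_le v a)
  have h3 : ∑ v ∈ F, log (v (algebraMap K L a)) ≤ ∑ v ∈ S, log (v (algebraMap K L a)) := by
    rw [← Finset.sum_sdiff hSF]
    have : ∑ v ∈ F \ S, log (v (algebraMap K L a)) ≤ 0 :=
      Finset.sum_nonpos fun v _ => log_nonpos (apply_nonneg _ _) (fin_le_one v (integral_map ha))
    linarith
  linarith

end Extension

end Pool.Agent.KS6_31.VJ
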